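import Pool.Agent.helper28.BQ.Defs

/-!
# BQ, part K: the arithmetic group acts cocompactly on the ball

Every `XX_stmt : Prop` is one module; its proof may assume any other `YY_stmt` as a hypothesis.
-/

open scoped BigOperators ComplexConjugate Matrix

namespace BQ

/-! ## totally real fields -/

/-- TR: real and complex embeddings; norms.  (Mathlib: `NumberField.Embeddings.card`,
`Algebra.norm_eq_prod_embeddings`, an integer of norm `0` is `0`.) -/
def TR_stmt : Prop := ∀ (F : Type) [Field F] [NumberField F],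
  (∀ (f : F →+* ℂ) (x : F), (f x).im = 0) →
  (∀ f : F →+* ℂ, ∃ v : F →+* ℝ, ∀ x, f x = ((v x : ℝ) : ℂ)) ∧
  Fintype.card (F →+* ℝ) = Module.finrank ℚ F ∧
  (∀ a : F, ((Algebra.norm ℚ a : ℚ) : ℝ) = ∏ v : F →+* ℝ, v a) ∧
  (∀ a : F, IsIntegral ℤ a → a ≠ 0 → 1 ≤ ∏ v : F →+* ℝ, |v a|) ∧
  (∀ a : F, IsIntegral ℤ a → a ≠ 0 → ∃ v : F →+* ℝ, 1 ≤ |v a|)

/-- FIN: finitely many integers of `F` with bounded real embeddings.
(Mathlib: `NumberField.Embeddings.finite_of_norm_le F ℂ B` and TR.) -/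
def FIN_stmt : Prop := ∀ (F : Type) [Field F] [NumberField F],
  (∀ (f : F →+* ℂ) (x : F), (f x).im = 0) → ∀ B : ℝ,
  {a : F | IsIntegral ℤ a ∧ ∀ v : F →+* ℝ, |v a| ≤ B}.Finite

/-- TB: a `ℤ`-basis of the integers of a totally real field has independent real embeddings:
the square matrix `(v (b k))` is invertible.  (If `∑ c_v v = 0` on the integers then on `F`, and
distinct embeddings are linearly independent characters: `linearIndependent_monoidHom`; the
cardinalities agree by TR.) Second part: `F` is dense in the product of its real places. -/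
def TB_stmt : Prop := ∀ (F : Type) [Field F] [NumberField F],
  (∀ (f : F →+* ℂ) (x : F), (f x).im = 0) →
  (∀ (c : (F →+* ℝ) → ℝ), (∀ a : F, IsIntegral ℤ a → ∑ v : F →+* ℝ, c v * v a = 0) → c = 0) ∧
  (∀ (t : (F →+* ℝ) → ℝ) (e : ℝ), 0 < e → ∃ a : F, ∀ v : F →+* ℝ, |v a - t v| < e)

/-! ## reduction theory -/

/-- RB: reduced bases.  Let `Q` be a positive definite real quadratic form in `N` variables with
`Q x ≥ c` for all nonzero integer vectors and `det Q ≤ D`; then some basis of `ℤ ^ N` has bounded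
values, the bound depends only on `N, c, D`.
Proof by induction on `N`: let `m ≥ c` be the minimum of `Q` on nonzero integer vectors (it is
attained), at a vector `x1`; `x1` is not divisible (else a smaller value), so it is part of a basis
of `ℤ ^ N`.  In this basis `Q (x, y) = m (x + b ⬝ y) ^ 2 + Q' y` with
`det Q' = det Q / m ≤ D / c` (Schur complement) and for `y ≠ 0` there is an integer `x` with
`|x + b ⬝ y| ≤ 1/2`, so `m ≤ m / 4 + Q' y`, `Q' y ≥ 3 m / 4 ≥ 3 c / 4`.  By induction `Q'` has a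
basis with values `≤ C'`; so `m ≤ 4 C' / 3` (if `N ≥ 2`; `m ≤ D` if `N = 1`), lift it with
`|x + b ⬝ y| ≤ 1/2`: values `≤ m / 4 + C'`. It may be easier to prove it for a free `ℤ`-module of
rank `N` with a quadratic form. -/
def RB_stmt : Prop := ∀ (N : ℕ) (c D : ℝ), 0 < c → ∃ C : ℝ, ∀ Q : Matrix (Fin N) (Fin N) ℝ,
  Q.PosDef → Q.det ≤ D →
  (∀ x : Fin N → ℤ, x ≠ 0 → c ≤ (fun i => (x i : ℝ)) ⬝ᵥ (Q *ᵥ fun i => (x i : ℝ))) →
  ∃ U : Matrix (Fin N) (Fin N) ℤ, IsUnit U.det ∧
    ∀ j, (fun i => (U i j : ℝ)) ⬝ᵥ (Q *ᵥ fun i => (U i j : ℝ)) ≤ C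

/-! ## the majorant -/

/-- MA: the majorant is positive definite and dominates the hermitian form.
(Decompose `X = a • zt w + Y` with `herm t (zt w) Y = 0`; `herm t` is positive on the orthogonal
complement of `zt w` because `herm t (zt w) (zt w) = |w|^2 - t < 0`: for `Y` orthogonal
`t * conj Y2 = conj ..`, Cauchy-Schwarz gives `t^2 |Y2|^2 ≤ |w|^2 (|Y0|^2 + |Y1|^2)`.) -/
def MA_stmt : Prop := ∀ (t : ℝ) (w : Fin 2 → ℂ), w ∈ Ball t →
  (∀ X : Fin 3 → ℂ, X ≠ 0 → 0 < maj t w X) ∧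
  (∀ X : Fin 3 → ℂ, |(herm t X X).re| ≤ maj t w X) ∧
  (∀ X Y : Fin 3 → ℂ, ‖herm t X Y‖ ^ 2 ≤ maj t w X * maj t w Y)

/-- MB: comparison with the standard norm on compact parts of the ball. -/
def MB_stmt : Prop := ∀ (t : ℝ) (K : Set (Fin 2 → ℂ)), 0 < t → IsCompact K → K ⊆ Ball t →
  ∃ c C : ℝ, 0 < c ∧ ∀ w ∈ K, ∀ X : Fin 3 → ℂ,
    c * (∑ i, ‖X i‖ ^ 2) ≤ maj t w X ∧ maj t w X ≤ C * (∑ i, ‖X i‖ ^ 2)

/-- MC: if the majorant is bounded on vectors spanning `ℂ ^ 3` then `w` stays in a compact subset.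
Proof: `2 ‖herm (zt w) X‖^2 = (maj - herm X X) (t - |w|^2)`, so `herm (zt w) X_i` is small if
`t - |w|^2` is small; but the `X_i` span and `zt w` has last coordinate `1`. -/
def MC_stmt : Prop := ∀ (t C : ℝ) (n : ℕ) (X : Fin n → Fin 3 → ℂ), 0 < t →
  Submodule.span ℂ (Set.range X) = ⊤ →
  ∃ r : ℝ, 0 < r ∧ r < t ∧ ∀ w ∈ Ball t, (∀ i, maj t w (X i) ≤ C) → ‖w 0‖ ^ 2 + ‖w 1‖ ^ 2 ≤ r

/-- MD: the determinant of the hermitian matrix of the majorant does not depend on `w`; in the
form: for `w, w'` in the ball there is a complex matrix `g` with `|det g| = 1` and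
`maj t w' (g X) = maj t w X`.  (Either an explicit boost, or: hermitian matrix
`H + 2 (H zt)(H zt)^* / (t - |w|^2)`, of determinant `t` by the rank one determinant lemma;
positive definite matrices of equal determinant are `B^* B`, `B'^* B'`, take `g = B'^{-1} B`.) -/
def MD_stmt : Prop := ∀ (t : ℝ) (w w' : Fin 2 → ℂ), 0 < t → w ∈ Ball t → w' ∈ Ball t →
  ∃ g : Matrix (Fin 3) (Fin 3) ℂ, ‖g.det‖ = 1 ∧ ∀ X : Fin 3 → ℂ, maj t w' (g *ᵥ X) = maj t w X

/-- ME: the action of the unitary group on the ball and the equivariance of the majorant. -/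
def ME_stmt : Prop := ∀ (t : ℝ) (g h : Matrix (Fin 3) (Fin 3) ℂ) (w : Fin 2 → ℂ), 0 < t →
  gᴴ * Hm t * g = Hm t → hᴴ * Hm t * h = Hm t → w ∈ Ball t →
  (g *ᵥ zt w) 2 ≠ 0 ∧ mob g w ∈ Ball t ∧ zt (mob g w) = ((g *ᵥ zt w) 2)⁻¹ • (g *ᵥ zt w) ∧
  mob (h * g) w = mob h (mob g w) ∧ mob 1 w = w ∧
  (∀ X : Fin 3 → ℂ, maj t (mob g w) (g *ᵥ X) = maj t w X) ∧
  (t - ‖mob g w 0‖ ^ 2 - ‖mob g w 1‖ ^ 2 = (t - ‖w 0‖ ^ 2 - ‖w 1‖ ^ 2) / ‖(g *ᵥ zt w) 2‖ ^ 2) ∧
  0 < (Nz t w).re

/-! ## the lattice -/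

section
variable {F : Type} [Field F] [NumberField F]

open scoped Classical in
/-- the total majorant on `E ^ 3` -/
noncomputable def QQ (kap d : F) (v0 : F →+* ℝ) (w : Fin 2 → ℂ) (x y : Fin 3 → F) : ℝ :=
  maj (v0 d) w (emb kap v0 x y) +
    ∑ v ∈ Finset.univ.erase v0, (herm (v d) (emb kap v x y) (emb kap v x y)).re

/-- first component of the hermitian product of `x + s y` and `x' + s y'` -/
def hp (kap d : F) (x y x' y' : Fin 3 → F) : F := bil d x x' + kap * bil d y y'

/-- second component (coefficient of `s`) -/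
def hq (d : F) (x y x' y' : Fin 3 → F) : F := bil d x y' - bil d y x'

/-- index set of the `ℤ`-basis of the lattice of integral vectors `x + s y` -/
abbrev JJ (F : Type) [Field F] [NumberField F] : Type :=
  Fin 2 × Fin 3 × Module.Free.ChooseBasisIndex ℤ (NumberField.RingOfIntegers F)

/-- `x`-component of the lattice vector with coordinates `c` -/
noncomputable def lx (c : JJ F → ℤ) : Fin 3 → F := fun i =>
  ∑ k, (c (0, i, k) : F) * (NumberField.RingOfIntegers.basis F k : F)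

/-- `y`-component of the lattice vector with coordinates `c` -/
noncomputable def ly (c : JJ F → ℤ) : Fin 3 → F := fun i =>
  ∑ k, (c (1, i, k) : F) * (NumberField.RingOfIntegers.basis F k : F)

end

/-- LC: lattice coordinates: integral vectors are exactly the `lx c, ly c`, uniquely. -/
def LC_stmt : Prop := ∀ (F : Type) [Field F] [NumberField F],
  (∀ (c : JJ F → ℤ) (i : Fin 3), IsIntegral ℤ (lx c i) ∧ IsIntegral ℤ (ly c i)) ∧
  (∀ x y : Fin 3 → F, (∀ i, IsIntegral ℤ (x i)) → (∀ i, IsIntegral ℤ (y i)) →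
    ∃! c : JJ F → ℤ, lx c = x ∧ ly c = y)

/-- HE: the hermitian form at the place `v` in terms of `hp`, `hq`. -/
def HE_stmt : Prop := ∀ (F : Type) [Field F] (kap d : F) (v : F →+* ℝ) (x y x' y' : Fin 3 → F),
  0 ≤ v kap → herm (v d) (emb kap v x y) (emb kap v x' y') =
    ((v (hp kap d x y x' y') : ℝ) : ℂ) -
      Complex.I * (Real.sqrt (v kap) : ℂ) * ((v (hq d x y x' y') : ℝ) : ℂ)

/-- LOW: the total majorant is at least `1` on nonzero integral vectors.
Proof: `n = hp x y x y` is an integer of `F` and `v n = herm (v d) .. ..`.  If `n ≠ 0` some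
`|v n| ≥ 1` (TR), at `v0` use MA, at the other places `herm` is nonnegative.  If `n = 0`: at a
place `v ≠ v0` (exists, degree at least 2) the form is positive definite so `emb .. = 0`,
`x = y = 0`. -/
def LOW_stmt : Prop := ∀ (F : Type) [Field F] [NumberField F] (kap d : F) (v0 : F →+* ℝ),
  Hyp F kap d v0 → ∀ w ∈ Ball (v0 d), ∀ x y : Fin 3 → F, (∀ i, IsIntegral ℤ (x i)) →
  (∀ i, IsIntegral ℤ (y i)) → ¬ (x = 0 ∧ y = 0) → 1 ≤ QQ kap d v0 w x y

/-- GR: the Gram matrix of the total majorant in the `ℤ`-basis of the lattice: it is positive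
definite and its determinant does not depend on `w`.
Proof: polarise the majorant; the embeddings of the lattice basis form an `ℝ`-basis of
`∏_v ℂ ^ 3` (TB; `kap` positive), so the form is positive definite there (MA); by MD there is a
real linear automorphism of `∏_v ℂ ^ 3` (`g` at `v0`, identity elsewhere) of determinant
`|det g|^2 = 1` (`LinearMap.det_restrictScalars`, `Algebra.norm` of `ℂ/ℝ`) moving one form to the
other, and the Gram matrices in a basis are related by `Tᵀ G T`, `det T = 1`. -/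
def GR_stmt : Prop := ∀ (F : Type) [Field F] [NumberField F] (kap d : F) (v0 : F →+* ℝ),
  Hyp F kap d v0 → ∃ D : ℝ, ∀ w ∈ Ball (v0 d), ∃ G : Matrix (JJ F) (JJ F) ℝ, G.PosDef ∧
  G.det = D ∧ ∀ c : JJ F → ℤ,
    QQ kap d v0 w (lx c) (ly c) = (fun i => (c i : ℝ)) ⬝ᵥ (G *ᵥ fun i => (c i : ℝ))

/-- RL: for every point of the ball the lattice has a basis with bounded majorant.
(RB, LOW, GR, LC; reindex `JJ F` by `Fin N`.) -/
def RL_stmt : Prop := ∀ (F : Type) [Field F] [NumberField F] (kap d : F) (v0 : F →+* ℝ),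
  Hyp F kap d v0 → ∃ C : ℝ, ∀ w ∈ Ball (v0 d), ∃ U : Matrix (JJ F) (JJ F) ℤ, IsUnit U.det ∧
    ∀ j, QQ kap d v0 w (lx fun i => U i j) (ly fun i => U i j) ≤ C

/-- GF: finitely many hermitian Gram matrices of bases with bounded majorant.
(MA Cauchy-Schwarz at every place: `‖herm X Y‖^2 ≤ maj X * maj Y`, each term of `QQ` is
nonnegative; HE: real and imaginary part bound `v hp` and `v hq`; FIN.) -/
def GF_stmt : Prop := ∀ (F : Type) [Field F] [NumberField F] (kap d : F) (v0 : F →+* ℝ),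
  Hyp F kap d v0 → ∀ C : ℝ, {P : JJ F → JJ F → F × F | ∃ w ∈ Ball (v0 d),
    ∃ U : Matrix (JJ F) (JJ F) ℤ, (∀ j, QQ kap d v0 w (lx fun i => U i j) (ly fun i => U i j) ≤ C) ∧
    ∀ j k, P j k =
      (hp kap d (lx fun i => U i j) (ly fun i => U i j) (lx fun i => U i k) (ly fun i => U i k),
       hq d (lx fun i => U i j) (ly fun i => U i j) (lx fun i => U i k) (ly fun i => U i k))}.Finite

/-- EX: two bases of the lattice with the same hermitian Gram matrix differ by an integral unitary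
matrix `A + s C` over `E`.
Proof: let `f` be the `ℤ`-linear bijection of the lattice with `U_j ↦ U'_j`; it preserves the pair
`(hp, hq)` (biadditive).  The lattice is stable under integers of `F` and under
`s : (x, y) ↦ (-kap y, x)`; `hp, hq` transform accordingly (`hp (a X) Y = a hp X Y`,
`hp (s X) Y = kap hq X Y`, `hq (s X) Y = - hp X Y`); by nondegeneracy (`d ≠ 0`) and surjectivity
`f (a X) = a f X`, `f (s X) = s f X`.  The matrix with columns `f (e_j)` works. -/
def EX_stmt : Prop := ∀ (F : Type) [Field F] [NumberField F] (kap d : F),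
  IsIntegral ℤ kap → d ≠ 0 → kap ≠ 0 → ∀ U U' : Matrix (JJ F) (JJ F) ℤ,
  IsUnit U.det → IsUnit U'.det →
  (∀ j k,
    hp kap d (lx fun i => U i j) (ly fun i => U i j) (lx fun i => U i k) (ly fun i => U i k) =
    hp kap d (lx fun i => U' i j) (ly fun i => U' i j) (lx fun i => U' i k) (ly fun i => U' i k) ∧
    hq d (lx fun i => U i j) (ly fun i => U i j) (lx fun i => U i k) (ly fun i => U i k) =
    hq d (lx fun i => U' i j) (ly fun i => U' i j) (lx fun i => U' i k) (ly fun i => U' i k)) →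
  ∃ A C : Matrix (Fin 3) (Fin 3) F, (∀ i j, IsIntegral ℤ (A i j)) ∧ (∀ i j, IsIntegral ℤ (C i j)) ∧
    Aᵀ * HF d * A + kap • (Cᵀ * HF d * C) = HF d ∧ Aᵀ * HF d * C = Cᵀ * HF d * A ∧
    ∀ j, A *ᵥ (lx fun i => U i j) - kap • (C *ᵥ (ly fun i => U i j)) = (lx fun i => U' i j) ∧
      A *ᵥ (ly fun i => U i j) + C *ᵥ (lx fun i => U i j) = (ly fun i => U' i j)

/-- OEm: elements of the ring `OE`; matrices over it.  (`kap` integral: the set of
`v0 a - I sqrt(kap) v0 c` is closed under multiplication.) -/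
def OEm_stmt : Prop := ∀ (F : Type) [Field F] (kap : F) (v0 : F →+* ℝ),
  IsIntegral ℤ kap → 0 < v0 kap →
  (∀ t : ℂ, t ∈ OE kap v0 ↔ ∃ a c : F, IsIntegral ℤ a ∧ IsIntegral ℤ c ∧
    t = ((v0 a : ℝ) : ℂ) - Complex.I * (Real.sqrt (v0 kap) : ℂ) * ((v0 c : ℝ) : ℂ)) ∧
  (∀ A C A' C' : Matrix (Fin 3) (Fin 3) F, ev kap v0 A C = ev kap v0 A' C' → A = A' ∧ C = C') ∧
  (∀ (v : F →+* ℝ) (A C A' C' : Matrix (Fin 3) (Fin 3) F), 0 ≤ v kap →
    ev kap v A C * ev kap v A' C' = ev kap v (A * A' - kap • (C * C')) (A * C' + C * A')) ∧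
  (∀ (v : F →+* ℝ) (A C : Matrix (Fin 3) (Fin 3) F) (x y : Fin 3 → F), 0 ≤ v kap →
    ev kap v A C *ᵥ emb kap v x y = emb kap v (A *ᵥ x - kap • (C *ᵥ y)) (A *ᵥ y + C *ᵥ x))

/-- GP: elements of `Gam` as pairs of matrices over `F`; they are unitary at every place.
(Unitarity at `v0` is an identity `v0 a - I sqrt(kap) v0 c = 0`, so `a = c = 0` in `F`; then
apply the other places; the determinant is `1` in `E`, hence at every place.) -/
def GP_stmt : Prop := ∀ (F : Type) [Field F] [NumberField F] (kap d : F) (v0 : F →+* ℝ),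
  Hyp F kap d v0 → ∀ g : Matrix.SpecialLinearGroup (Fin 3) ℂ, g ∈ Gam kap d v0 ↔
  ∃ A C : Matrix (Fin 3) (Fin 3) F, (∀ i j, IsIntegral ℤ (A i j)) ∧ (∀ i j, IsIntegral ℤ (C i j)) ∧
    (g : Matrix (Fin 3) (Fin 3) ℂ) = ev kap v0 A C ∧
    Aᵀ * HF d * A + kap • (Cᵀ * HF d * C) = HF d ∧ Aᵀ * HF d * C = Cᵀ * HF d * A ∧
    ∀ v : F →+* ℝ, (ev kap v A C).det = 1 ∧ (ev kap v A C)ᴴ * Hm (v d) * ev kap v A C = Hm (v d)

/-- DF: the determinants of integral unitary matrices form a finite set.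
(At every place the determinant has absolute value `1`; it is `v p - I sqrt(kap) v q` with
integral `p, q` independent of the place; FIN.) -/
def DF_stmt : Prop := ∀ (F : Type) [Field F] [NumberField F] (kap d : F) (v0 : F →+* ℝ),
  Hyp F kap d v0 → {t : ℂ | ∃ A C : Matrix (Fin 3) (Fin 3) F, (∀ i j, IsIntegral ℤ (A i j)) ∧
    (∀ i j, IsIntegral ℤ (C i j)) ∧ Aᵀ * HF d * A + kap • (Cᵀ * HF d * C) = HF d ∧
    Aᵀ * HF d * C = Cᵀ * HF d * A ∧ t = (ev kap v0 A C).det}.Finite

/-- KF: cocompactness.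
Proof: RL gives for every `w` a reduced basis `U_w`; by GF only finitely many Gram matrices occur,
and by EX two points with the same Gram matrix give an integral unitary matrix `γ = A + s C` with
`γ U = U'`, whose determinant is in a finite set (DF).  Choose for each occurring pair
(Gram matrix, determinant) one representative.  If `γ U = U'` then, with `w1 = mob (ev ..)⁻¹ w'`,
`QQ w1 U_j = QQ w' U'_j ≤ C` (ME at `v0`, unitarity at the other places), so `w1` is in a fixed
compact set by MC (the `U_j` span).  Correct the determinant by a fixed integral unitary matrix of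
the same determinant. -/
def KF_stmt : Prop := ∀ (F : Type) [Field F] [NumberField F] (kap d : F) (v0 : F →+* ℝ),
  Hyp F kap d v0 → Cocompact (v0 d) (Gam kap d v0)

/-- KS: subgroups of finite index of a cocompact group are cocompact.
(Finitely many right cosets `G' ρ_i` of `G'` in `G`, `K' = ∪ mob ρ_i K`.) -/
def KS_stmt : Prop := ∀ (t : ℝ) (G G' : Subgroup (Matrix.SpecialLinearGroup (Fin 3) ℂ)), 0 < t →
  (∀ g ∈ G, (g : Matrix (Fin 3) (Fin 3) ℂ)ᴴ * Hm t * (g : Matrix (Fin 3) (Fin 3) ℂ) = Hm t) →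
  G' ≤ G → G'.relIndex G ≠ 0 → Cocompact t G → Cocompact t G'

end BQ
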