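import Pool.Agent.helper35.BQ.Spec
import Pool.Agent.helper13.DI.B10
import Pool.Agent.helper21.DI.B9

set_option autoImplicit false

open Pool.Agent.helper58.DC Pool.Agent.DI Pool.Agent.DR Pool.Agent.NQ

namespace Pool.Agent.BQ

/-- two subgroups of a finite cyclic group with the same order are equal -/
lemma VAN_cyc {Q : Type} [Group Q] [Finite Q] [IsCyclic Q] (S T : Subgroup Q)
    (h : Nat.card S = Nat.card T) : S = T := by
  classical
  let _ : Fintype Q := Fintype.ofFinite Q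
  have key : ∀ (S : Subgroup Q) (q : Q), q ^ Nat.card S = 1 ↔ q ∈ S := by
    intro S q
    have hpos : 0 < Nat.card S := Nat.card_pos
    have h1 := IsCyclic.card_pow_eq_one_le (α := Q) hpos
    have hsub : (Finset.univ.filter (fun a : Q => a ∈ S)) ⊆
        (Finset.univ.filter (fun a : Q => a ^ Nat.card S = 1)) := by
      intro a ha
      rw [Finset.mem_filter] at ha ⊢
      refine ⟨Finset.mem_univ _, ?_⟩
      have := pow_card_eq_one' (x := (⟨a, ha.2⟩ : S))
      exact congrArg Subtype.val this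
    have hcS : (Finset.univ.filter (fun a : Q => a ∈ S)).card = Nat.card S := by
      rw [Nat.card_eq_fintype_card, Fintype.card_subtype]
    have heq := Finset.eq_of_subset_of_card_le hsub (by rw [hcS]; exact h1)
    constructor
    · intro hq
      have : q ∈ (Finset.univ.filter (fun a : Q => a ^ Nat.card S = 1)) := by
        rw [Finset.mem_filter]; exact ⟨Finset.mem_univ _, hq⟩
      rw [← heq, Finset.mem_filter] at this
      exact this.2
    · intro hq
      have : q ∈ (Finset.univ.filter (fun a : Q => a ∈ S)) := by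
        rw [Finset.mem_filter]; exact ⟨Finset.mem_univ _, hq⟩
      have := hsub this
      rw [Finset.mem_filter] at this
      exact this.2
  ext q
  rw [← key S q, ← key T q, h]

lemma VAN_lift {H : Type} [Group H] [Finite H] (K : Subgroup H) [K.Normal] [IsCyclic (H ⧸ K)]
    (S T : Subgroup H) (hS : K ≤ S) (hT : K ≤ T) (h : Nat.card S = Nat.card T) : S = T := by
  have hc : ∀ S : Subgroup H, K ≤ S →
      Nat.card K * Nat.card (S.map (QuotientGroup.mk' K)) = Nat.card S := by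
    intro S hS
    have h1 := Subgroup.relIndex_ker (K := S) (QuotientGroup.mk' K)
    rw [QuotientGroup.ker_mk'] at h1
    rw [← h1, ← Nat.card_congr (Subgroup.subgroupOfEquivOfLe hS).toEquiv]
    exact (K.subgroupOf S).card_mul_index
  have hK : 0 < Nat.card K := Nat.card_pos
  have h2 : Nat.card (S.map (QuotientGroup.mk' K)) = Nat.card (T.map (QuotientGroup.mk' K)) := by
    refine Nat.eq_of_mul_eq_mul_left hK ?_
    rw [hc S hS, hc T hT, h]
  have h3 := VAN_cyc _ _ h2
  have h4 := congrArg (Subgroup.comap (QuotientGroup.mk' K)) h3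
  rw [QuotientGroup.comap_map_mk', QuotientGroup.comap_map_mk', sup_eq_right.2 hS,
    sup_eq_right.2 hT] at h4
  exact h4

/-- the common kernel of a group of linear characters -/
def VAN_U {H Λ : Type} [Group H] [CommGroup Λ] (l : Λ →* (H →* ℂˣ)) (L : Subgroup Λ) :
    Subgroup H where
  carrier := {x | ∀ a ∈ L, l a x = 1}
  mul_mem' := by
    intro x y hx hy a ha
    rw [map_mul, hx a ha, hy a ha, mul_one]
  one_mem' := fun a _ => map_one _
  inv_mem' := by
    intro x hx a ha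
    rw [map_inv, hx a ha, inv_one]

open Classical in
lemma VAN_dual {H Λ : Type} [Group H] [Finite H] [CommGroup Λ] [Finite Λ]
    (l : Λ →* (H →* ℂˣ)) (hl : Function.Injective l) (L : Subgroup Λ) :
    Nat.card L * Nat.card (VAN_U l L) = Nat.card H := by
  let _ : Fintype H := Fintype.ofFinite H
  let _ : Fintype L := Fintype.ofFinite L
  have h1 : ∑ x : H, ∑ a : L, ((l (a : Λ) x : ℂˣ) : ℂ) =
      (Nat.card L : ℂ) * (Nat.card (VAN_U l L) : ℂ) := by
    have hx : ∀ x : H, ∑ a : L, ((l (a : Λ) x : ℂˣ) : ℂ) =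
        if x ∈ VAN_U l L then (Nat.card L : ℂ) else 0 := by
      intro x
      let f : L →* ℂ := (Units.coeHom ℂ).comp
        ((MonoidHom.eval x).comp (l.comp L.subtype))
      have hf : ∀ a : L, f a = ((l (a : Λ) x : ℂˣ) : ℂ) := fun a => rfl
      have h2 := sum_hom_units f
      have h3 : f = 1 ↔ x ∈ VAN_U l L := by
        constructor
        · intro h a ha
          have h4 := DFunLike.congr_fun h ⟨a, ha⟩
          rw [hf] at h4
          exact Units.ext h4
        · intro h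
          ext a
          rw [hf, h a.1 a.2]
          simp
      rw [Finset.sum_congr rfl (fun a _ => (hf a).symm), h2]
      by_cases hc : x ∈ VAN_U l L
      · rw [if_pos (h3.2 hc), if_pos hc, Nat.card_eq_fintype_card]
      · rw [if_neg (fun h => hc (h3.1 h)), if_neg hc]; simp
    rw [Finset.sum_congr rfl (fun x _ => hx x), ← Finset.sum_filter, Finset.sum_const,
      nsmul_eq_mul, mul_comm]
    congr 1
    rw [Nat.card_eq_fintype_card, Fintype.card_subtype]
  have h2 : ∑ x : H, ∑ a : L, ((l (a : Λ) x : ℂˣ) : ℂ) = (Nat.card H : ℂ) := by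
    rw [Finset.sum_comm]
    have ha : ∀ a : L, ∑ x : H, ((l (a : Λ) x : ℂˣ) : ℂ) =
        if a = 1 then (Nat.card H : ℂ) else 0 := by
      intro a
      let f : H →* ℂ := (Units.coeHom ℂ).comp (l (a : Λ))
      have h2 := sum_hom_units f
      have h3 : f = 1 ↔ a = 1 := by
        constructor
        · intro h
          have h4 : l (a : Λ) = l 1 := by
            rw [map_one]
            ext x
            exact DFunLike.congr_fun h x
          exact Subtype.ext (hl h4)
        · intro h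
          ext x
          show ((l (a : Λ) x : ℂˣ) : ℂ) = 1
          rw [h]
          simp
      have h5 : ∑ x : H, ((l (a : Λ) x : ℂˣ) : ℂ) = ∑ x : H, f x := rfl
      rw [h5, h2]
      by_cases hc : a = 1
      · rw [if_pos (h3.2 hc), if_pos hc, Nat.card_eq_fintype_card]
      · rw [if_neg (fun h => hc (h3.1 h)), if_neg hc]; simp
    rw [Finset.sum_congr rfl (fun a _ => ha a), Finset.sum_ite_eq' Finset.univ (1 : L),
      if_pos (Finset.mem_univ _)]
  rw [h1] at h2
  exact_mod_cast h2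

theorem VAN_core (hIF : IF_stmt) (hB0 : B0_stmt) (hB2 : B2_stmt) (hB5 : B5_stmt) (hB8 : B8_stmt)
    (H : Type) [Group H] [Finite H] (K : Subgroup H) (hcyc : CycQ K) (φ : H → ℂ) (hφ : φ ∈ Irr H)
    (ψ : H → ℂ) (hψ : ψ ∈ IrrOn K) (hov : OverP K ⊤ φ ψ) (x : H) (hx : φ x ≠ 0) :
    x ∈ stF (⊤ : Subgroup H) ψ := by
  classical
  have hK : K.Normal := hcyc.1
  let _ : Fintype H := Fintype.ofFinite H
  have hKc : (Nat.card K : ℂ) ≠ 0 := by
    have : 0 < Nat.card K := Nat.card_pos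
    exact_mod_cast this.ne'
  have hKf : ∀ f : H → ℂ, ∑ᶠ x ∈ (K : Set H), f x = ∑ x ∈ (K : Set H).toFinset, f x := by
    intro f
    rw [← finsum_mem_coe_finset, Set.coe_toFinset]
  obtain ⟨Λ, _, _, l, hl, hcard, hl1, hl0⟩ := hB5 H K hcyc
  have orbself : ∀ x ∈ K,
      φ x = ∑ χ ∈ (B9_orb_fin ψ).toFinset, (((fun _ => 1 : (H → ℂ) → ℕ) χ : ℕ) : ℂ) * χ x := by
    intro x hx
    have h2 := hov x hx
    have h3 : (∑ᶠ ψ' ∈ {ψ' : H → ℂ | ∃ n ∈ (⊤ : Subgroup H), ψ' = funMap (MulAut.conj n) ψ}, ψ' x) =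
        ∑ ψ' ∈ (B9_orb_fin ψ).toFinset, ψ' x := finsum_mem_eq_finite_toFinset_sum _ (B9_orb_fin ψ)
    rw [h2, h3]
    refine Finset.sum_congr rfl (fun χ _ => ?_)
    simp
  have hcO : (∑ χ ∈ (B9_orb_fin ψ).toFinset, if χ ∈ B9_orb ψ then 1 else 0) =
      Nat.card (B9_orb ψ) := by
    have h1 : ∀ χ ∈ (B9_orb_fin ψ).toFinset, (if χ ∈ B9_orb ψ then 1 else 0) = 1 := by
      intro χ hχ
      exact if_pos ((Set.Finite.mem_toFinset _).1 hχ)
    rw [Finset.sum_congr rfl h1, Finset.sum_const, smul_eq_mul, mul_one]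
    have h2 := Nat.card_coe_set_eq (B9_orb ψ)
    rw [h2, Set.ncard_eq_toFinset_card _ (B9_orb_fin ψ)]
  have hfib : Nat.card {a : Λ // ∀ x, ((l a x : ℂˣ) : ℂ) * φ x = φ x} = Nat.card (B9_orb ψ) := by
    have h5 := B9_ip2 hIF hB2 K hK ψ hψ φ hov φ (B9_orb_fin ψ).toFinset
      (fun χ hχ => B9_orb_sub hIF K hK ψ hψ ((Set.Finite.mem_toFinset _).1 hχ)) (fun _ => 1)
      orbself
    rw [hcO] at h5
    have h3 := hB8 H K Λ l hcard hl1 hl0 φ hφ φ hφ
    rw [hKf, h5] at h3
    have h4 := mul_left_cancel₀ hKc h3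
    exact_mod_cast h4.symm
  let L : Subgroup Λ :=
    { carrier := {a | ∀ x, ((l a x : ℂˣ) : ℂ) * φ x = φ x}
      mul_mem' := by
        intro a b ha hb x
        have e : ((l (a * b) x : ℂˣ) : ℂ) = ((l a x : ℂˣ) : ℂ) * ((l b x : ℂˣ) : ℂ) := by
          rw [map_mul, MonoidHom.mul_apply, Units.val_mul]
        rw [e, mul_assoc, hb x, ha x]
      one_mem' := by
        intro x
        rw [map_one, MonoidHom.one_apply, Units.val_one, one_mul]
      inv_mem' := by
        intro a ha x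
        have e : ((l a⁻¹ x : ℂˣ) : ℂ) * ((l a x : ℂˣ) : ℂ) = 1 := by
          rw [map_inv, MonoidHom.inv_apply, ← Units.val_mul, inv_mul_cancel, Units.val_one]
        calc ((l a⁻¹ x : ℂˣ) : ℂ) * φ x = ((l a⁻¹ x : ℂˣ) : ℂ) * (((l a x : ℂˣ) : ℂ) * φ x) := by
              rw [ha x]
          _ = (((l a⁻¹ x : ℂˣ) : ℂ) * ((l a x : ℂˣ) : ℂ)) * φ x := by ring
          _ = φ x := by rw [e, one_mul] }
  have hL : Nat.card L = Nat.card (B9_orb ψ) := hfib
  have hdual := VAN_dual l hl L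
  have horb := B9_orb_card ψ
  have hLpos : 0 < Nat.card L := Nat.card_pos
  have hUT : Nat.card (VAN_U l L) = Nat.card (stF (⊤ : Subgroup H) ψ) := by
    refine Nat.eq_of_mul_eq_mul_left hLpos ?_
    rw [hdual, hL, horb]
  have hcy : IsCyclic (H ⧸ K) := (hB0.2.2.1 H K).1 hcyc
  have hKU : K ≤ VAN_U l L := fun k hk a _ => hl1 a k hk
  have hKT : K ≤ stF (⊤ : Subgroup H) ψ := by
    intro k hk
    refine ⟨Subgroup.mem_top _, ?_⟩
    funext g
    show ψ ((MulAut.conj k)⁻¹ g) = ψ g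
    rw [MulAut.conj_inv_apply]
    have := ((hB2 H K).2 ψ hψ).2.1 g k⁻¹ (K.inv_mem hk)
    rw [inv_inv] at this
    exact this
  have heq := VAN_lift K (VAN_U l L) (stF (⊤ : Subgroup H) ψ) hKU hKT hUT
  rw [← heq]
  intro a ha
  have h6 : ((l a x : ℂˣ) : ℂ) * φ x = 1 * φ x := by rw [one_mul]; exact ha x
  exact Units.ext (mul_right_cancel₀ hx h6)

theorem VAN (hIF : IF_stmt) (hIRT : IRT_stmt) (hB0 : B0_stmt) (hB2 : B2_stmt) (hB5 : B5_stmt)
    (hB8 : B8_stmt) : VAN_stmt := by
  intro Γ _ _ G' N hcyc φ hφ ψ hψ hov x hxN hx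
  have hK : CycQ (G'.subgroupOf N) := hB0.2.1 Γ G' N hcyc
  have hs := B10_supp_of_irr N G' ψ hψ
  have h1 := VAN_core hIF hB0 hB2 hB5 hB8 N (G'.subgroupOf N) hK (B10_res N φ) hφ.2
    (B10_res N ψ) ((B10_irrK N hIRT G' ψ hs).1 hψ) ((B10_over N G' φ ψ hs).1 hov) ⟨x, hxN⟩ hx
  have h2 : x ∈ (stF (⊤ : Subgroup N) (B10_res N ψ)).map N.subtype := ⟨⟨x, hxN⟩, h1, rfl⟩
  rw [B10_stab N ψ hs] at h2
  exact h2

end Pool.Agent.BQ
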