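import Mathlib

/-!
# BQ: theta 1-forms on compact ball quotients

`F` is a totally real number field, `kap` a totally positive integer of `F`, `E = F(s)` with
`s ^ 2 = - kap`, `v0` a real place of `F`, `d` an integer of `F` positive at `v0` and negative at
all other real places, `H = diag (1, 1, -d)`.  Elements `x + s y` of `E ^ 3` are pairs of vectors
over `F`, `3 x 3` matrices `A + s C` over `E` are pairs of matrices over `F`.  At a real place `v`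
we always evaluate at `s = - I * sqrt (v kap)` (this is the conjugate embedding, which acts on the
ball coordinate).
-/

open scoped BigOperators ComplexConjugate Matrix

namespace BQ

/-- the standing hypotheses on `F`, `kap`, `d`, `v0` -/
structure Hyp (F : Type) [Field F] [NumberField F] (kap d : F) (v0 : F →+* ℝ) : Prop where
  /-- `F` is totally real -/
  real : ∀ (f : F →+* ℂ) (x : F), (f x).im = 0
  /-- there is a place different from `v0` -/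
  deg : 2 ≤ Module.finrank ℚ F
  kapInt : IsIntegral ℤ kap
  dInt : IsIntegral ℤ d
  kapPos : ∀ v : F →+* ℝ, 0 < v kap
  dPos : 0 < v0 d
  dNeg : ∀ v : F →+* ℝ, v ≠ v0 → v d < 0

/-! ## the ball and the action of complex matrices -/

/-- the hermitian matrix `diag (1, 1, -t)` -/
noncomputable def Hm (t : ℝ) : Matrix (Fin 3) (Fin 3) ℂ := Matrix.diagonal ![1, 1, -(t : ℂ)]

/-- the hermitian form `conj X ^ T * diag (1, 1, -t) * Y` -/
noncomputable def herm (t : ℝ) (X Y : Fin 3 → ℂ) : ℂ :=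
  conj (X 0) * Y 0 + conj (X 1) * Y 1 - (t : ℂ) * (conj (X 2) * Y 2)

/-- the vector `(z0, z1, 1)` -/
def zt (z : Fin 2 → ℂ) : Fin 3 → ℂ := ![z 0, z 1, 1]

/-- the ball of squared radius `t` in `ℂ ^ 2` -/
def Ball (t : ℝ) : Set (Fin 2 → ℂ) := {z | ‖z 0‖ ^ 2 + ‖z 1‖ ^ 2 < t}

/-- the action by fractional linear maps -/
noncomputable def mob (g : Matrix (Fin 3) (Fin 3) ℂ) (z : Fin 2 → ℂ) : Fin 2 → ℂ :=
  ![(g *ᵥ zt z) 0 / (g *ᵥ zt z) 2, (g *ᵥ zt z) 1 / (g *ᵥ zt z) 2]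

/-- the positive definite majorant of `herm t` attached to the point `w` of the ball -/
noncomputable def maj (t : ℝ) (w : Fin 2 → ℂ) (X : Fin 3 → ℂ) : ℝ :=
  (herm t X X).re + 2 * ‖herm t (zt w) X‖ ^ 2 / (t - ‖w 0‖ ^ 2 - ‖w 1‖ ^ 2)

/-! ## the arithmetic group -/

section
variable {F : Type} [Field F]

/-- the image of `x + s y` in `ℂ ^ 3` at the place `v`, for `s = - I * sqrt (v kap)` -/
noncomputable def emb (kap : F) (v : F →+* ℝ) (x y : Fin 3 → F) : Fin 3 → ℂ :=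
  fun i => ((v (x i) : ℝ) : ℂ) - Complex.I * (Real.sqrt (v kap) : ℂ) * ((v (y i) : ℝ) : ℂ)

/-- the image of the matrix `A + s C` at the place `v`, for `s = - I * sqrt (v kap)` -/
noncomputable def ev (kap : F) (v : F →+* ℝ) (A C : Matrix (Fin 3) (Fin 3) F) :
    Matrix (Fin 3) (Fin 3) ℂ :=
  Matrix.of fun i j =>
    ((v (A i j) : ℝ) : ℂ) - Complex.I * (Real.sqrt (v kap) : ℂ) * ((v (C i j) : ℝ) : ℂ)

/-- the bilinear form `x0 y0 + x1 y1 - d x2 y2` over `F` -/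
def bil (d : F) (x y : Fin 3 → F) : F := x 0 * y 0 + x 1 * y 1 - d * (x 2 * y 2)

/-- the matrix `diag (1, 1, -d)` over `F` -/
def HF (d : F) : Matrix (Fin 3) (Fin 3) F := Matrix.diagonal ![1, 1, -d]

/-- the subring of `ℂ` generated by `v0 (integers of F)` and `sqrt (-kap)` -/
noncomputable def OE (kap : F) (v0 : F →+* ℝ) : Subring ℂ :=
  Subring.closure ({t : ℂ | ∃ a : F, IsIntegral ℤ a ∧ t = ((v0 a : ℝ) : ℂ)} ∪
    {Complex.I * (Real.sqrt (v0 kap) : ℂ)})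

/-- the special unitary group of `diag (1, 1, -d)` over the ring `OE` -/
noncomputable def Gam (kap d : F) (v0 : F →+* ℝ) :
    Subgroup (Matrix.SpecialLinearGroup (Fin 3) ℂ) where
  carrier := {g | (∀ i j, (g : Matrix (Fin 3) (Fin 3) ℂ) i j ∈ OE kap v0) ∧
    (g : Matrix (Fin 3) (Fin 3) ℂ)ᴴ * Hm (v0 d) * (g : Matrix (Fin 3) (Fin 3) ℂ) = Hm (v0 d)}
  mul_mem' := by
    rintro g h ⟨hg, hg'⟩ ⟨hh, hh'⟩
    refine ⟨fun i j => ?_, ?_⟩
    · rw [Matrix.SpecialLinearGroup.coe_mul, Matrix.mul_apply]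
      exact Subring.sum_mem _ fun k _ => Subring.mul_mem _ (hg i k) (hh k j)
    · rw [Matrix.SpecialLinearGroup.coe_mul, Matrix.conjTranspose_mul]
      have e : (h : Matrix (Fin 3) (Fin 3) ℂ)ᴴ * (g : Matrix (Fin 3) (Fin 3) ℂ)ᴴ * Hm (v0 d) *
          ((g : Matrix (Fin 3) (Fin 3) ℂ) * (h : Matrix (Fin 3) (Fin 3) ℂ)) =
          (h : Matrix (Fin 3) (Fin 3) ℂ)ᴴ * ((g : Matrix (Fin 3) (Fin 3) ℂ)ᴴ * Hm (v0 d) *
          (g : Matrix (Fin 3) (Fin 3) ℂ)) * (h : Matrix (Fin 3) (Fin 3) ℂ) := by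
        simp only [Matrix.mul_assoc]
      rw [e, hg', hh']
  one_mem' := by
    refine ⟨fun i j => ?_, by simp⟩
    rw [Matrix.SpecialLinearGroup.coe_one, Matrix.one_apply]
    split_ifs
    · exact Subring.one_mem _
    · exact Subring.zero_mem _
  inv_mem' := by
    rintro g ⟨hg, hg'⟩
    have hinv : ((g⁻¹ : Matrix.SpecialLinearGroup (Fin 3) ℂ) : Matrix (Fin 3) (Fin 3) ℂ) =
        Matrix.adjugate (g : Matrix (Fin 3) (Fin 3) ℂ) := rfl
    refine ⟨fun i j => ?_, ?_⟩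
    · rw [hinv]
      have h1 : (g : Matrix (Fin 3) (Fin 3) ℂ) =
          (OE kap v0).subtype.mapMatrix (Matrix.of fun i j => ⟨_, hg i j⟩) := by
        ext i j; rfl
      rw [h1, ← RingHom.map_adjugate]
      exact Subtype.coe_prop _
    · have hu : (g : Matrix (Fin 3) (Fin 3) ℂ) *
          ((g⁻¹ : Matrix.SpecialLinearGroup (Fin 3) ℂ) : Matrix (Fin 3) (Fin 3) ℂ) = 1 := by
        rw [← Matrix.SpecialLinearGroup.coe_mul, mul_inv_cancel, Matrix.SpecialLinearGroup.coe_one]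
      have hv := congrArg Matrix.conjTranspose hu
      rw [Matrix.conjTranspose_mul, Matrix.conjTranspose_one] at hv
      calc ((g⁻¹ : Matrix.SpecialLinearGroup (Fin 3) ℂ) : Matrix (Fin 3) (Fin 3) ℂ)ᴴ * Hm (v0 d) *
            ((g⁻¹ : Matrix.SpecialLinearGroup (Fin 3) ℂ) : Matrix (Fin 3) (Fin 3) ℂ)
          = ((g⁻¹ : Matrix.SpecialLinearGroup (Fin 3) ℂ) : Matrix (Fin 3) (Fin 3) ℂ)ᴴ *
            ((g : Matrix (Fin 3) (Fin 3) ℂ)ᴴ * Hm (v0 d) * (g : Matrix (Fin 3) (Fin 3) ℂ)) *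
            ((g⁻¹ : Matrix.SpecialLinearGroup (Fin 3) ℂ) : Matrix (Fin 3) (Fin 3) ℂ) := by
              rw [hg']
        _ = (((g⁻¹ : Matrix.SpecialLinearGroup (Fin 3) ℂ) : Matrix (Fin 3) (Fin 3) ℂ)ᴴ *
            (g : Matrix (Fin 3) (Fin 3) ℂ)ᴴ) * Hm (v0 d) * ((g : Matrix (Fin 3) (Fin 3) ℂ) *
            ((g⁻¹ : Matrix.SpecialLinearGroup (Fin 3) ℂ) : Matrix (Fin 3) (Fin 3) ℂ)) := by
              simp only [Matrix.mul_assoc]
        _ = Hm (v0 d) := by rw [hu, hv]; simp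

/-! ## differential forms and fundamental domains -/

/-- the 1-form `f 0 dz0 + f 1 dz1` on the ball is invariant under `mob g` -/
def Inv1 (t : ℝ) (g : Matrix (Fin 3) (Fin 3) ℂ) (f : (Fin 2 → ℂ) → Fin 2 → ℂ) : Prop :=
  ∀ z ∈ Ball t, ∀ u : Fin 2 → ℂ, f (mob g z) ⬝ᵥ (fderiv ℂ (mob g) z u) = f z ⬝ᵥ u

/-- the 2-form `f dz0 dz1` on the ball is invariant under `mob g` -/
def Inv2 (t : ℝ) (g : Matrix (Fin 3) (Fin 3) ℂ) (f : (Fin 2 → ℂ) → ℂ) : Prop :=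
  ∀ z ∈ Ball t, f (mob g z) * (fderiv ℂ (mob g) z).det = f z

/-- coefficient of `dz0 dz1` in the wedge product of two 1-forms -/
def wedge (f g : (Fin 2 → ℂ) → Fin 2 → ℂ) (z : Fin 2 → ℂ) : ℂ := f z 0 * g z 1 - f z 1 * g z 0

/-- the 1-form `f` is holomorphic and closed on the ball -/
def HolClosed (t : ℝ) (f : (Fin 2 → ℂ) → Fin 2 → ℂ) : Prop :=
  DifferentiableOn ℂ f (Ball t) ∧
  ∀ z ∈ Ball t, fderiv ℂ f z (Pi.single 0 1) 1 = fderiv ℂ f z (Pi.single 1 1) 0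

/-- `D` is a measurable strict fundamental domain of the group `G` in the ball -/
def IsFD (t : ℝ) (G : Subgroup (Matrix.SpecialLinearGroup (Fin 3) ℂ)) (D : Set (Fin 2 → ℂ)) :
    Prop :=
  MeasurableSet D ∧ D ⊆ Ball t ∧ ∀ z ∈ Ball t, ∃! w, w ∈ D ∧ ∃ g ∈ G, mob g z = w

/-- `G` acts freely on the ball -/
def ActsFreely (t : ℝ) (G : Subgroup (Matrix.SpecialLinearGroup (Fin 3) ℂ)) : Prop :=
  ∀ g ∈ G, ∀ z ∈ Ball t, mob g z = z → g = 1

/-- the quotient of the ball by `G` is compact -/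
def Cocompact (t : ℝ) (G : Subgroup (Matrix.SpecialLinearGroup (Fin 3) ℂ)) : Prop :=
  ∃ K : Set (Fin 2 → ℂ), IsCompact K ∧ K ⊆ Ball t ∧ ∀ z ∈ Ball t, ∃ g ∈ G, mob g z ∈ K

/-! ## the theta 1-forms -/

/-- `b (x, zt z)` at the place `v0` -/
noncomputable def bz (d : F) (v0 : F →+* ℝ) (x : Fin 3 → F) (z : Fin 2 → ℂ) : ℂ :=
  (v0 (x 0) : ℂ) * z 0 + (v0 (x 1) : ℂ) * z 1 - (v0 d : ℂ) * (v0 (x 2) : ℂ)

/-- `N z = t - z0 ^ 2 - z1 ^ 2`, which has positive real part on the ball -/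
noncomputable def Nz (t : ℝ) (z : Fin 2 → ℂ) : ℂ := (t : ℂ) - z 0 ^ 2 - z 1 ^ 2

/-- `q_z (x) = b (x, x) + 2 b (x, zt z) ^ 2 / N z` -/
noncomputable def qz (d : F) (v0 : F →+* ℝ) (x : Fin 3 → F) (z : Fin 2 → ℂ) : ℂ :=
  (v0 (bil d x x) : ℂ) + 2 * bz d v0 x z ^ 2 / Nz (v0 d) z

/-- `y_v = |v del| * sqrt (v kap)` -/
noncomputable def yv (kap del : F) (v : F →+* ℝ) : ℝ := |v del| * Real.sqrt (v kap)

open scoped Classical in
/-- the gaussian factor -/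
noncomputable def gauss [NumberField F] (kap d del : F) (v0 : F →+* ℝ) (x : Fin 3 → F)
    (z : Fin 2 → ℂ) : ℂ :=
  Complex.exp (-(Real.pi : ℂ) * ((∑ v ∈ Finset.univ.erase v0, yv kap del v * v (bil d x x) : ℝ) : ℂ)
    - (Real.pi : ℂ) * (yv kap del v0 : ℂ) * qz d v0 x z)

/-- coefficients of `d (b (x, zt z) / sqrt (N z))` -/
noncomputable def dsz (d : F) (v0 : F →+* ℝ) (x : Fin 3 → F) (z : Fin 2 → ℂ) (i : Fin 2) : ℂ :=
  ((v0 (x (Fin.castSucc i)) : ℂ) + bz d v0 x z * z i / Nz (v0 d) z) /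
    (Nz (v0 d) z) ^ (1 / 2 : ℂ)

/-- the theta 1-form attached to `del` and the function `phi` -/
noncomputable def theta1 [NumberField F] (kap d del : F) (v0 : F →+* ℝ)
    (phi : (Fin 3 → F) → ℂ) (z : Fin 2 → ℂ) (i : Fin 2) : ℂ :=
  ∑' x : Fin 3 → F, phi x * gauss kap d del v0 x z * dsz d v0 x z i

/-- finite Schwartz functions on `F ^ k`: periodic and supported modulo integers -/
def IsSB {k : Type} (phi : (k → F) → ℂ) : Prop :=
  ∃ n : ℕ, 0 < n ∧ (∀ x, phi x ≠ 0 → ∀ i, IsIntegral ℤ ((n : F) * x i)) ∧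
    ∀ x y : k → F, (∀ i, IsIntegral ℤ (y i)) → phi (fun i => x i + (n : F) * y i) = phi x

end

end BQ
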